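import Pool.Agent.H201.SK.Oracle
import Pool.Agent.H201.AD.Mind

/-!
# Changes of mind and guesses for general inputs
-/

set_option autoImplicit false

namespace Pool.Agent.H201.SK

open Encodable Pool.Agent.H201.AD

/-- from changes of mind to guesses -/
theorem guesses_of_changes {α : Type} [Primcodable α] {G : α × ℕ → ℕ} (hG : Computable G) :
    ∃ F : ℕ × α →. ℕ, Partrec F ∧ ∀ (k : ℕ) (x : α) (s₀ : ℕ), (∀ s ≥ s₀, G (x, s) = G (x, s₀)) →
      {s | G (x, s + 1) ≠ G (x, s)}.ncard ≤ k → ∃ b < k + 1, G (x, s₀) ∈ F (b, x) := by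
  obtain ⟨G', hG'⟩ : ∃ G' : ℕ × ℕ → ℕ, G' = fun z =>
    (Option.casesOn (decode (α := α) z.1) 0 (fun x => G (x, z.2)) : ℕ) := ⟨_, rfl⟩
  have cG' : Computable G' := by
    rw [hG']
    have h1 : Computable (fun w : (ℕ × ℕ) × α => G (w.2, w.1.2)) :=
      hG.comp (Computable.snd.pair (Computable.snd.comp Computable.fst))
    exact Computable.option_casesOn (o := fun z : ℕ × ℕ => decode (α := α) z.1)
      (f := fun _ => 0) (g := fun z x => G (x, z.2)) (Computable.decode.comp Computable.fst)
      (Computable.const 0) h1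
  have hval : ∀ x s, G' (encode x, s) = G (x, s) := by
    intro x s
    rw [hG']
    simp only [encodek]
  obtain ⟨F, hF, hF2⟩ := guesses_of_mind_changes cG'
  refine ⟨fun z => F (encode z.2, z.1), ?_, fun k x s₀ h1 h2 => ?_⟩
  · exact hF.comp ((Computable.encode.comp Computable.snd).pair Computable.fst)
  · have h3 := hF2 k (encode x) s₀ (by simpa only [hval] using h1) (by simpa only [hval] using h2)
    simpa only [hval] using h3

end Pool.Agent.H201.SK
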