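import Pool.Agent.H201.SK.Vote
import Pool.Graph.R_seed8.TH997.SP.Cons

/-!
# The Skolem Problem and upper bounds for the isolated zeros
-/

set_option autoImplicit false

namespace Pool.Agent.H201.SK

open Filter Encodable Pool.Agent.Q324.SC
open Pool.Agent.H692R2.USS Pool.Agent.TH997.SP Pool.Agent.TH997.US
open Pool.Agent.Helper446.RE (cp_eq cp_le cp_lt cp_comp cite computable_of_graph)

lemma val_of {p : Pr} (hp : Valid p) : Val (cv p) := (val_cv p).2 hp

lemma seq_iff {p : Pr} (hp : Valid p) (u : ℕ → ℤ) : IsSeq p.1 p.2 u ↔ u = sq (cv p) := by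
  constructor
  · rintro ⟨h1, h2⟩
    exact funext ((rec_iff (val_of hp) u).1 ⟨h1, h2⟩)
  · rintro rfl
    exact (rec_iff (val_of hp) (sq (cv p))).2 fun _ => rfl

lemma iso_iff {p : Pr} (hp : Valid p) (n : ℕ) : Iso (sq (cv p)) n ↔ Spor (cv p) n :=
  (spor_iff (val_of hp) n).symm

lemma bdI_iff {p : Pr} (hp : Valid p) (v : ℕ) : BdI p v ↔ ∀ n, Spor (cv p) n → n ≤ v := by
  unfold BdI
  constructor
  · intro h n hn
    exact h (sq (cv p)) ((seq_iff hp _).2 rfl) n ((iso_iff hp n).2 hn)
  · intro h u hu n hn
    rw [seq_iff hp] at hu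
    rw [hu] at hn
    exact h n ((iso_iff hp n).1 hn)

/-! ### from bounds to the decision -/

theorem zero_of_bound {B : Pr → ℕ} (hB : Computable B) (h : ∀ p, Valid p → BdI p (B p)) :
    ComputablePred Zero := by
  have h1 : ComputablePred (fun p : Pr => Val (cv p) ∧
      ((∃ n < B p + 1, Spor (cv p) n) ∨ ∃ r < Tf (cv p), ¬ nz (cv p) r)) := by
    refine cp_and (cp_comp cp_val computable_cv) (cp_or ?_ ?_)
    · refine cp_ex (p := fun (p : Pr) n => Spor (cv p) n) ?_ (Computable.succ.comp hB)
      exact cp_comp cp_Spor (f := fun x : Pr × ℕ => (cv x.1, x.2))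
        ((computable_cv.comp Computable.fst).pair Computable.snd)
    · refine cp_ex (p := fun (p : Pr) r => ¬ nz (cv p) r) ?_ (cTf.comp computable_cv)
      exact ComputablePred.not (cp_comp cp_nz (f := fun x : Pr × ℕ => (cv x.1, x.2))
        ((computable_cv.comp Computable.fst).pair Computable.snd))
  refine h1.of_eq fun p => ?_
  constructor
  · rintro ⟨hv, h2⟩
    have hp : Valid p := (val_cv p).1 hv
    have h3 : ∃ n, sq (cv p) n = 0 := by
      rcases h2 with ⟨n, _, hn⟩ | ⟨r, _, hr⟩
      · exact ⟨n, ((spor_iff hv n).1 hn).1⟩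
      · exact ⟨r + Tf (cv p) * 0, zero_class hv hr 0⟩
    exact (zero_iff (c := p.1) (a := p.2) hp ((seq_iff hp _).2 rfl)).2 h3
  · intro hz
    have hp : Valid p := ⟨hz.1, hz.2.1, hz.2.2.1⟩
    have hv := val_of hp
    obtain ⟨n, hn⟩ := (zero_iff (c := p.1) (a := p.2) hp ((seq_iff hp _).2 rfl)).1 hz
    refine ⟨hv, ?_⟩
    by_cases hnz : nz (cv p) (n % Tf (cv p))
    · refine Or.inl ⟨n, ?_, ?_⟩
      · have h2 : Spor (cv p) n := ⟨hv, (iv_eq_zero _).1 hn, hnz⟩
        have := (bdI_iff hp _).1 (h p hp) n h2
        omega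
      · exact ⟨hv, (iv_eq_zero _).1 hn, hnz⟩
    · exact Or.inr ⟨n % Tf (cv p), Nat.mod_lt _ (Tf_pos _), hnz⟩

/-! ### from the decision to bounds -/

lemma map_range_comp {α β : Type} [Primcodable α] [Primcodable β] {f : α → ℕ → β} {L : α → ℕ}
    (hf : Computable (fun x : α × ℕ => f x.1 x.2)) (hL : Computable L) :
    Computable (fun a => (List.range (L a)).map (f a)) := by
  have h1 : Computable (fun a => (Nat.rec (motive := fun _ => List β) []
      (fun i l => l ++ [f a i]) (L a) : List β)) := by
    refine Computable.nat_rec (f := L) (g := fun _ => ([] : List β))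
      (h := fun a (y : ℕ × List β) => y.2 ++ [f a y.1]) hL (Computable.const _) ?_
    have h2 : Computable (fun z : α × ℕ × List β => f z.1 z.2.1) :=
      hf.comp (Computable.fst.pair (Computable.fst.comp Computable.snd))
    exact Primrec.list_append.to_comp.comp (Computable.snd.comp Computable.snd)
      (Computable.list_cons.comp h2 (Computable.const []))
  refine h1.of_eq fun a => ?_
  have key : ∀ n : ℕ, (Nat.rec (motive := fun _ => List β) [] (fun i l => l ++ [f a i]) n : List β) =
      (List.range n).map (f a) := by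
    intro n
    induction n with
    | zero => rfl
    | succ n ih =>
      rw [List.range_succ, List.map_append, ← ih]
      rfl
  exact key (L a)

/-- the recurrence of the sequences of period `T` -/
def per' (T : ℕ) : List ℤ := (List.range T).map fun i => bif decide (i + 1 = T) then 1 else 0

lemma per'_primrec : Primrec per' := by
  unfold per'
  refine pmap (f := fun T : ℕ => List.range T)
    (g := fun (T : ℕ) (i : ℕ) => (bif decide (i + 1 = T) then 1 else 0 : ℤ)) (by fun_prop) ?_
  fun_prop

lemma per'_length (T : ℕ) : (per' T).length = T := by simp [per']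

lemma per'_getD {T i : ℕ} (hi : i < T) : (per' T).getD i 0 = if i + 1 = T then 1 else 0 := by
  unfold per'
  rw [List.getD_eq_getElem _ _ (by simpa using hi)]
  simp only [List.getElem_map, List.getElem_range]
  by_cases h : i + 1 = T
  · simp [h]
  · simp [h]

lemma rec_per {T : ℕ} (hT : 1 ≤ T) {w : ℕ → ℤ} (hw : ∀ n, w (n + T) = w n) : Rec (per' T) w := by
  intro n
  rw [per'_length, hw, Finset.sum_eq_single (T - 1)]
  · rw [per'_getD (by omega), if_pos (by omega), one_mul]
    congr 1
    omega
  · intro j hj hne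
    rw [Finset.mem_range] at hj
    rw [per'_getD hj, if_neg (by omega), zero_mul]
  · intro hj
    exact absurd (Finset.mem_range.2 (by omega)) hj

lemma rec_shift {c : List ℤ} {u : ℕ → ℤ} (hu : Rec c u) (N : ℕ) :
    Rec c (fun n => u (N + n)) := by
  intro n
  simp only
  rw [← add_assoc, hu (N + n)]
  refine Finset.sum_congr rfl fun j hj => ?_
  rw [Finset.mem_range] at hj
  congr 2
  omega

lemma rec_add {c : List ℤ} {u v : ℕ → ℤ} (hu : Rec c u) (hv : Rec c v) :
    Rec c (fun n => u n + v n) := by
  intro n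
  simp only
  rw [hu n, hv n, ← Finset.sum_add_distrib]
  refine Finset.sum_congr rfl fun j _ => ?_
  ring

theorem bound_of_zero (h : ComputablePred Zero) :
    ∃ B : Pr → ℕ, Computable B ∧ ∀ p, Valid p → BdI p (B p) := by
  classical
  obtain ⟨T, hT⟩ : ∃ T : Pr → ℕ, T = fun p => Tf (cv p) := ⟨_, rfl⟩
  have cT : Computable T := by
    rw [hT]
    exact cTf.comp computable_cv
  have hTpos : ∀ p, 1 ≤ T p := by
    intro p
    rw [hT]
    exact Tf_pos _
  obtain ⟨w, cw, hw⟩ : ∃ w : Pr × ℕ → ℤ, Computable w ∧
      ∀ p n, w (p, n) = if nz (cv p) (n % T p) then 0 else 1 := by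
    have h1 : ComputablePred (fun x : Pr × ℕ => nz (cv x.1) (x.2 % T x.1)) := by
      refine cp_comp cp_nz (f := fun x : Pr × ℕ => (cv x.1, x.2 % T x.1)) ?_
      exact (computable_cv.comp Computable.fst).pair
        (Primrec.nat_mod.to_comp.comp Computable.snd (cT.comp Computable.fst))
    obtain ⟨inst, hc⟩ := h1
    refine ⟨fun x => bif @decide _ (inst x) then 0 else 1,
      Computable.cond hc (Computable.const 0) (Computable.const 1), fun p n => ?_⟩
    change (bif @decide (nz (cv p) (n % T p)) (inst (p, n)) then 0 else 1 : ℤ) = _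
    by_cases h2 : nz (cv p) (n % T p)
    · rw [if_pos h2, @decide_eq_true _ (inst (p, n)) h2, cond_true]
    · rw [if_neg h2, @decide_eq_false _ (inst (p, n)) h2, cond_false]
  -- the new inputs
  obtain ⟨d2, hd2⟩ : ∃ d2 : Pr × ℕ → Pr, d2 = fun x => (cj x.1.1 (per' (T x.1)),
      (List.range (x.1.1.length + T x.1)).map fun i =>
        (aa x.1.1 x.1.2 (T x.1 + x.2)).getD (x.2 + i) 0 + w (x.1, x.2 + i)) := ⟨_, rfl⟩
  have cd2 : Computable d2 := by
    rw [hd2]
    have a1 : Computable (fun x : Pr × ℕ => per' (T x.1)) :=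
      per'_primrec.to_comp.comp (cT.comp Computable.fst)
    have a2 : Computable (fun x : Pr × ℕ => cj x.1.1 (per' (T x.1))) :=
      Computable.comp (f := fun x : List ℤ × List ℤ => cj x.1 x.2)
        (g := fun x : Pr × ℕ => (x.1.1, per' (T x.1))) cj_primrec.to_comp
        ((Computable.fst.comp Computable.fst).pair a1)
    have a3 : Computable (fun x : Pr × ℕ => x.1.1.length + T x.1) :=
      Primrec.nat_add.to_comp.comp (Computable.list_length.comp (Computable.fst.comp Computable.fst))
        (cT.comp Computable.fst)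
    have a4 : Computable (fun x : Pr × ℕ => aa x.1.1 x.1.2 (T x.1 + x.2)) :=
      aa_comp (Computable.fst.comp Computable.fst) (Computable.snd.comp Computable.fst)
        (Primrec.nat_add.to_comp.comp (cT.comp Computable.fst) Computable.snd)
    have a5 : Computable (fun y : (Pr × ℕ) × ℕ => y.1.2 + y.2) :=
      Primrec.nat_add.to_comp.comp (Computable.snd.comp Computable.fst) Computable.snd
    have a6 : Computable (fun y : (Pr × ℕ) × ℕ =>
        (aa y.1.1.1 y.1.1.2 (T y.1.1 + y.1.2)).getD (y.1.2 + y.2) 0) :=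
      (Primrec.list_getD (0 : ℤ)).to_comp.comp (a4.comp Computable.fst) a5
    have a7 : Computable (fun y : (Pr × ℕ) × ℕ => w (y.1.1, y.1.2 + y.2)) :=
      cw.comp ((Computable.fst.comp Computable.fst).pair a5)
    have h0 : Primrec (fun y : ℤ × ℤ => y.1 + y.2) := by fun_prop
    have a8 : Computable (fun y : (Pr × ℕ) × ℕ =>
        (aa y.1.1.1 y.1.1.2 (T y.1.1 + y.1.2)).getD (y.1.2 + y.2) 0 + w (y.1.1, y.1.2 + y.2)) :=
      Computable.comp (f := fun y : ℤ × ℤ => y.1 + y.2)
        (g := fun y : (Pr × ℕ) × ℕ =>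
          ((aa y.1.1.1 y.1.1.2 (T y.1.1 + y.1.2)).getD (y.1.2 + y.2) 0, w (y.1.1, y.1.2 + y.2)))
        h0.to_comp (a6.pair a7)
    exact a2.pair (map_range_comp (f := fun (x : Pr × ℕ) i =>
      (aa x.1.1 x.1.2 (T x.1 + x.2)).getD (x.2 + i) 0 + w (x.1, x.2 + i)) a8 a3)
  have key : ∀ p N, Valid p → (Zero (d2 (p, N)) ↔ ∃ n ≥ N, Spor (cv p) n) := by
    intro p N hp
    obtain ⟨u, hu0⟩ : ∃ u, u = sq (cv p) := ⟨_, rfl⟩
    have hu : IsSeq p.1 p.2 u := (seq_iff hp u).2 hu0
    have hlen : (d2 (p, N)).1.length = p.1.length + T p := by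
      rw [hd2]
      change (cj p.1 (per' (T p))).length = _
      rw [cj_length, per'_length]
    have hwT : ∀ n, w (p, n + T p) = w (p, n) := by
      intro n
      rw [hw, hw, Nat.add_mod_right]
    have hval : Valid (d2 (p, N)) := by
      refine ⟨?_, ?_, ?_⟩
      · rw [hlen, hd2]
        simp
      · rw [hlen]
        have := hp.2.1
        omega
      · rw [hd2]
        change (cj p.1 (per' (T p))).getD ((cj p.1 (per' (T p))).length - 1) 0 ≠ 0
        refine cj_last hp.2.1 hp.2.2 (by rw [per'_length]; exact hTpos p) ?_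
        have := hTpos p
        rw [per'_length, per'_getD (by omega), if_pos (by omega)]
        exact one_ne_zero
    have hseq : IsSeq (d2 (p, N)).1 (d2 (p, N)).2 (fun n => u (N + n) + w (p, N + n)) := by
      refine ⟨fun i hi => ?_, ?_⟩
      · rw [hlen] at hi
        rw [hd2]
        simp only
        rw [List.getD_eq_getElem _ _ (by simpa using hi)]
        simp only [List.getElem_map, List.getElem_range]
        rw [aa_getD hp hu (by omega)]
      · have h1 : Rec (cj p.1 (per' (T p))) (fun n => u (N + n)) :=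
          rec_cj (rec_shift hu.2 N)
        have h2 : Rec (cj p.1 (per' (T p))) (fun n => w (p, N + n)) := by
          refine rec_cj' (rec_per (hTpos p) fun n => ?_)
          rw [← add_assoc]
          exact hwT (N + n)
        have h3 := rec_add h1 h2
        rw [hd2]
        exact h3
    rw [show d2 (p, N) = ((d2 (p, N)).1, (d2 (p, N)).2) from rfl, zero_iff hval hseq]
    have hv := val_of hp
    constructor
    · rintro ⟨n, hn⟩
      refine ⟨N + n, by omega, ?_⟩
      rw [hw] at hn
      by_cases hnz : nz (cv p) ((N + n) % T p)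
      · rw [if_pos hnz, add_zero, hu0] at hn
        rw [hT] at hnz
        exact ⟨hv, (iv_eq_zero _).1 hn, hnz⟩
      · exfalso
        rw [if_neg hnz] at hn
        have hnz' : ¬ nz (cv p) ((N + n) % Tf (cv p)) := by
          rw [hT] at hnz
          exact hnz
        have h4 := zero_class hv hnz' ((N + n) / Tf (cv p))
        rw [Nat.mod_add_div, ← hu0] at h4
        rw [h4] at hn
        norm_num at hn
    · rintro ⟨n, hn, hs⟩
      refine ⟨n - N, ?_⟩
      have e : N + (n - N) = n := by omega
      rw [e, hw, if_pos (by rw [hT]; exact hs.2.2), add_zero, hu0]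
      exact ((spor_iff hv n).1 hs).1
  -- the search
  obtain ⟨inst, hc⟩ := h
  let q : Pr → ℕ → Bool := fun p N => !(decide (Valid p)) || !(@decide _ (inst (d2 (p, N))))
  have hq : Computable₂ q := by
    have a1 : Computable (fun x : Pr × ℕ => !(decide (Valid x.1))) :=
      Primrec.not.to_comp.comp (valid_comp.comp Computable.fst)
    have a2 : Computable (fun x : Pr × ℕ => !(@decide _ (inst (d2 (x.1, x.2))))) :=
      Primrec.not.to_comp.comp (hc.comp cd2)
    exact Primrec.or.to_comp.comp a1 a2
  obtain ⟨B, hB, hB2⟩ := Pool.Agent.H201.AD.Bnd.find_comp hq fun p => by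
    by_cases hp : Valid p
    · have hfin : ∃ N, ¬ ∃ n ≥ N, Spor (cv p) n := by
        by_contra hcon
        push Not at hcon
        have hinf : Set.Infinite {n | Spor (cv p) n} := by
          rw [Set.infinite_iff_exists_gt]
          intro N
          obtain ⟨n, hn, hs⟩ := hcon (N + 1)
          exact ⟨n, hs, by omega⟩
        obtain ⟨S, hS, hcard⟩ := hinf.exists_subset_card_eq (Bd (cv p) + 1)
        obtain ⟨M, hM⟩ : ∃ M, ∀ n ∈ S, n < M := ⟨S.sup id + 1, fun n hn => by
          have := Finset.le_sup (f := id) hn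
          simp only [id] at this
          omega⟩
        have h1 : S ⊆ (Finset.range M).filter (fun n => Spor (cv p) n) := by
          intro n hn
          exact Finset.mem_filter.2 ⟨Finset.mem_range.2 (hM n hn), hS hn⟩
        have h2 := Finset.card_le_card h1
        have h3 := count (cv p) M
        have h4 : ((Finset.range M).filter (fun n => Spor (cv p) n)).card ≤ Bd (cv p) := by
          convert h3
        omega
      obtain ⟨N, hN⟩ := hfin
      refine ⟨N, ?_⟩
      have h1 : ¬ Zero (d2 (p, N)) := fun hz => hN ((key p N hp).1 hz)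
      simp only [q]
      rw [@decide_eq_false _ (inst (d2 (p, N))) h1]
      simp
    · refine ⟨0, ?_⟩
      simp only [q]
      rw [decide_eq_false hp]
      simp
  refine ⟨B, hB, fun p hp => ?_⟩
  have h1 := hB2 p
  simp only [q] at h1
  rw [decide_eq_true hp] at h1
  have h2 : ¬ Zero (d2 (p, B p)) := by
    intro hz
    rw [@decide_eq_true _ (inst (d2 (p, B p))) hz] at h1
    simp at h1
  rw [key p (B p) hp] at h2
  rw [bdI_iff hp]
  intro n hn
  by_contra hcon
  exact h2 ⟨n, by omega, hn⟩

end Pool.Agent.H201.SK
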