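import Pool.Graph.R_pool_sql_team_seeded_2aa45f1a.Q324.SC.SkolemMain

/-!
# Sums and interleavings of linear recurrence sequences
-/

set_option autoImplicit false

namespace Pool.Agent.H201.SK

open Pool.Agent.Q324.SC

abbrev Pr : Type := List ℤ × List ℤ

/-- the recurrence -/
def Rec (c : List ℤ) (u : ℕ → ℤ) : Prop :=
  ∀ n : ℕ, u (n + c.length) = ∑ j ∈ Finset.range c.length, c.getD j 0 * u (n + c.length - 1 - j)

lemma rec_gen {c : List ℤ} {u : ℕ → ℤ} (hu : Rec c u) {m : ℕ} {r : ℕ → ℤ}
    (hr : ∀ s, m ≤ s → r s = 0) (N : ℕ) :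
    ∑ i ∈ Finset.range (c.length + m), (c.getD i 0 - r i
      + ∑ j ∈ Finset.range i, c.getD j 0 * r (i - 1 - j)) * u (N + (c.length + m) - 1 - i) =
    u (N + (c.length + m)) := by
  obtain ⟨n, hn⟩ : ∃ n, n = c.length + m := ⟨_, rfl⟩
  rw [← hn]
  have h1 : ∀ i ∈ Finset.range n, (c.getD i 0 - r i
      + ∑ j ∈ Finset.range i, c.getD j 0 * r (i - 1 - j)) * u (N + n - 1 - i)
      = c.getD i 0 * u (N + n - 1 - i) - r i * u (N + n - 1 - i)
        + ∑ j ∈ Finset.range i, c.getD j 0 * r (i - 1 - j)
          * u (N + n - 1 - ((i - 1 - j) + j + 1)) := by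
    intro i hi
    rw [Finset.mem_range] at hi
    rw [add_mul, sub_mul, Finset.sum_mul]
    congr 1
    refine Finset.sum_congr rfl fun j hj => ?_
    rw [Finset.mem_range] at hj
    have : i - 1 - j + j + 1 = i := by omega
    rw [this]
  rw [Finset.sum_congr rfl h1, Finset.sum_add_distrib, Finset.sum_sub_distrib,
    conv_sum n (fun j s => c.getD j 0 * r s * u (N + n - 1 - (s + j + 1)))]
  have h2 : ∑ i ∈ Finset.range n, c.getD i 0 * u (N + n - 1 - i) = u (N + n) := by
    have e : N + n = (N + m) + c.length := by omega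
    rw [e, hu (N + m)]
    symm
    refine Finset.sum_subset ?_ ?_
    · intro i hi
      rw [Finset.mem_range] at *
      omega
    · intro i _ hi
      rw [Finset.mem_range] at hi
      rw [getD_zero (by omega), zero_mul]
  have h3 : ∀ s ∈ Finset.range n, (∑ j ∈ Finset.range n, if s + j + 1 < n then
      c.getD j 0 * r s * u (N + n - 1 - (s + j + 1)) else 0)
      = r s * u (N + n - 1 - s) := by
    intro s hs
    rcases Nat.lt_or_ge s m with h | h
    · have e : N + n - 1 - s = (N + m - 1 - s) + c.length := by omega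
      rw [e, hu, Finset.mul_sum]
      symm
      have h4 : ∀ j ∈ Finset.range c.length,
          r s * (c.getD j 0 * u (N + m - 1 - s + c.length - 1 - j))
          = if s + j + 1 < n then c.getD j 0 * r s * u (N + n - 1 - (s + j + 1)) else 0 := by
        intro j hj
        rw [Finset.mem_range] at hj
        rw [if_pos (by omega)]
        have e2 : N + m - 1 - s + c.length - 1 - j = N + n - 1 - (s + j + 1) := by omega
        rw [e2]
        ring
      rw [Finset.sum_congr rfl h4]
      refine Finset.sum_subset ?_ ?_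
      · intro i hi
        rw [Finset.mem_range] at *
        omega
      · intro i _ hi
        rw [Finset.mem_range] at hi
        rw [getD_zero (by omega)]
        simp
    · rw [hr s h]
      simp
  rw [Finset.sum_congr rfl h3, h2]
  ring

/-- the recurrence `1 - C'' = (1 - C) (1 - C')` -/
def cj (c c' : List ℤ) : List ℤ := (List.range (c.length + c'.length)).map (fun i =>
  c.getD i 0 + c'.getD i 0 - ((List.range i).map (fun j => c.getD j 0 * c'.getD (i - 1 - j) 0)).sum)

lemma cj_length (c c' : List ℤ) : (cj c c').length = c.length + c'.length := by simp [cj]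

lemma cj_getD {c c' : List ℤ} {i : ℕ} (hi : i < c.length + c'.length) :
    (cj c c').getD i 0 = c.getD i 0 + c'.getD i 0
      - ∑ j ∈ Finset.range i, c.getD j 0 * c'.getD (i - 1 - j) 0 := by
  unfold cj
  rw [List.getD_eq_getElem _ _ (by simpa using hi)]
  simp only [List.getElem_map, List.getElem_range]
  rw [sum_range_list]

lemma cj_comm (c c' : List ℤ) : cj c c' = cj c' c := by
  unfold cj
  rw [Nat.add_comm]
  refine List.map_congr_left fun i _ => ?_
  rw [sum_range_list, sum_range_list, ← Finset.sum_range_reflect]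
  rw [add_comm (c.getD i 0)]
  congr 1
  refine Finset.sum_congr rfl fun j hj => ?_
  rw [Finset.mem_range] at hj
  have : i - 1 - (i - 1 - j) = j := by omega
  rw [this, mul_comm]

lemma rec_cj {c c' : List ℤ} {u : ℕ → ℤ} (hu : Rec c u) : Rec (cj c c') u := by
  intro N
  rw [cj_length]
  have h1 := rec_gen hu (m := c'.length) (r := fun s => - c'.getD s 0) (fun s hs => by
    rw [getD_zero hs, neg_zero]) N
  rw [← h1]
  refine Finset.sum_congr rfl fun i hi => ?_
  rw [Finset.mem_range] at hi
  rw [cj_getD hi]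
  congr 1
  simp only [mul_neg, Finset.sum_neg_distrib]
  ring

lemma rec_cj' {c c' : List ℤ} {u : ℕ → ℤ} (hu : Rec c' u) : Rec (cj c c') u := by
  rw [cj_comm]
  exact rec_cj hu

lemma cj_last {c c' : List ℤ} (hc : 1 ≤ c.length) (hl : c.getD (c.length - 1) 0 ≠ 0)
    (hc' : 1 ≤ c'.length) (hl' : c'.getD (c'.length - 1) 0 ≠ 0) :
    (cj c c').getD ((cj c c').length - 1) 0 ≠ 0 := by
  rw [cj_length, cj_getD (by omega), getD_zero (by omega), getD_zero (c := c') (by omega)]
  rw [Finset.sum_eq_single (c.length - 1)]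
  · have e : c.length + c'.length - 1 - 1 - (c.length - 1) = c'.length - 1 := by omega
    rw [e, zero_add, zero_sub]
    exact neg_ne_zero.2 (mul_ne_zero hl hl')
  · intro j hj hne
    rw [Finset.mem_range] at hj
    rcases Nat.lt_or_ge j c.length with h | h
    · rw [getD_zero (c := c') (by omega), mul_zero]
    · rw [getD_zero h, zero_mul]
  · intro h
    rw [Finset.mem_range] at h
    omega

/-- the values of the sequence, `i < length + m` -/
lemma aa_getD {p : Pr} (hv : Valid p) {u : ℕ → ℤ} (hu : IsSeq p.1 p.2 u) {m i : ℕ}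
    (hi : i < p.1.length + m) : (aa p.1 p.2 m).getD i 0 = u i := by
  have h1 := isSeq_new hv.1 hv.2.1 hu m 0 0
  exact (h1.1 i (by rw [cc_length]; exact hi)).symm

/-! ### interleaving -/

/-- the recurrence for the interleaved sequence -/
def ic (e : List ℤ) : List ℤ :=
  (List.range (2 * e.length)).map fun i => bif decide (i % 2 = 1) then e.getD (i / 2) 0 else 0

/-- interleaved values -/
def iw (l l' : List ℤ) (D : ℕ) : List ℤ :=
  (List.range (2 * D)).map fun i => bif decide (i % 2 = 0) then l.getD (i / 2) 0 else l'.getD (i / 2) 0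

def il (p q : Pr) : Pr :=
  (ic (cj p.1 q.1), iw (aa p.1 p.2 q.1.length) (aa q.1 q.2 p.1.length) (p.1.length + q.1.length))

/-- the interleaved sequence -/
def inter (u v : ℕ → ℤ) (n : ℕ) : ℤ := if n % 2 = 0 then u (n / 2) else v (n / 2)

lemma inter_even (u v : ℕ → ℤ) (n : ℕ) : inter u v (2 * n) = u n := by
  unfold inter
  rw [if_pos (by omega)]
  congr 1
  omega

lemma inter_odd (u v : ℕ → ℤ) (n : ℕ) : inter u v (2 * n + 1) = v n := by
  unfold inter
  rw [if_neg (by omega)]
  congr 1
  omega

lemma ic_length (e : List ℤ) : (ic e).length = 2 * e.length := by simp [ic]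

lemma ic_getD {e : List ℤ} {i : ℕ} (hi : i < 2 * e.length) :
    (ic e).getD i 0 = if i % 2 = 1 then e.getD (i / 2) 0 else 0 := by
  unfold ic
  rw [List.getD_eq_getElem _ _ (by simpa using hi)]
  simp only [List.getElem_map, List.getElem_range]
  by_cases h : i % 2 = 1
  · simp [h]
  · simp [h]

lemma sum_even_odd (f : ℕ → ℤ) (D : ℕ) :
    ∑ i ∈ Finset.range (2 * D), f i = ∑ j ∈ Finset.range D, (f (2 * j) + f (2 * j + 1)) := by
  induction D with
  | zero => simp
  | succ D ih =>
    have h1 : 2 * (D + 1) = 2 * D + 1 + 1 := by ring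
    rw [h1, Finset.sum_range_succ, Finset.sum_range_succ, ih, Finset.sum_range_succ]
    ring

lemma rec_inter {e : List ℤ} {u v : ℕ → ℤ} (hu : Rec e u) (hv : Rec e v) :
    Rec (ic e) (inter u v) := by
  intro n
  rw [ic_length, sum_even_odd]
  have h1 : ∀ j ∈ Finset.range e.length,
      (ic e).getD (2 * j) 0 * inter u v (n + 2 * e.length - 1 - 2 * j)
      + (ic e).getD (2 * j + 1) 0 * inter u v (n + 2 * e.length - 1 - (2 * j + 1)) =
      e.getD j 0 * inter u v (n + 2 * (e.length - 1 - j)) := by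
    intro j hj
    rw [Finset.mem_range] at hj
    rw [ic_getD (by omega), ic_getD (by omega), if_neg (by omega), if_pos (by omega)]
    have e1 : (2 * j + 1) / 2 = j := by omega
    have e2 : n + 2 * e.length - 1 - (2 * j + 1) = n + 2 * (e.length - 1 - j) := by omega
    rw [e1, e2, zero_mul, zero_add]
  rw [Finset.sum_congr rfl h1]
  rcases Nat.even_or_odd' n with ⟨k, hk | hk⟩
  · have e3 : n + 2 * e.length = 2 * (k + e.length) := by omega
    rw [e3, inter_even, hu k]
    refine Finset.sum_congr rfl fun j hj => ?_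
    rw [Finset.mem_range] at hj
    have e4 : n + 2 * (e.length - 1 - j) = 2 * (k + e.length - 1 - j) := by omega
    rw [e4, inter_even]
  · have e3 : n + 2 * e.length = 2 * (k + e.length) + 1 := by omega
    rw [e3, inter_odd, hv k]
    refine Finset.sum_congr rfl fun j hj => ?_
    rw [Finset.mem_range] at hj
    have e4 : n + 2 * (e.length - 1 - j) = 2 * (k + e.length - 1 - j) + 1 := by omega
    rw [e4, inter_odd]

lemma il_isSeq {p q : Pr} (hp : Valid p) (hq : Valid q) {u v : ℕ → ℤ} (hu : IsSeq p.1 p.2 u)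
    (hv : IsSeq q.1 q.2 v) : IsSeq (il p q).1 (il p q).2 (inter u v) := by
  have hp1 := hp.2.1
  refine ⟨fun i hi => ?_, ?_⟩
  · have hi' : i < 2 * (p.1.length + q.1.length) := by
      change i < (ic (cj p.1 q.1)).length at hi
      rwa [ic_length, cj_length] at hi
    change inter u v i = (iw _ _ _).getD i 0
    unfold iw
    rw [List.getD_eq_getElem _ _ (by simpa using hi')]
    simp only [List.getElem_map, List.getElem_range]
    unfold inter
    by_cases h : i % 2 = 0
    · rw [if_pos h, decide_eq_true h, cond_true, aa_getD hp hu (by omega)]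
    · rw [if_neg h, decide_eq_false h, cond_false, aa_getD hq hv (by omega)]
  · exact rec_inter (rec_cj hu.2) (rec_cj' hv.2)

lemma il_valid {p q : Pr} (hp : Valid p) (hq : Valid q) : Valid (il p q) := by
  have hp1 := hp.2.1
  have hl : (ic (cj p.1 q.1)).length = 2 * (p.1.length + q.1.length) := by
    rw [ic_length, cj_length]
  refine ⟨?_, ?_, ?_⟩
  · change (ic (cj p.1 q.1)).length = (iw _ _ _).length
    rw [hl]
    simp [iw]
  · change 1 ≤ (ic (cj p.1 q.1)).length
    rw [hl]
    omega
  · change (ic (cj p.1 q.1)).getD ((ic (cj p.1 q.1)).length - 1) 0 ≠ 0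
    have h1 := cj_last hp.2.1 hp.2.2 hq.2.1 hq.2.2
    rw [cj_length] at h1
    rw [hl, ic_getD (by rw [cj_length]; omega), if_pos (by omega)]
    have e1 : (2 * (p.1.length + q.1.length) - 1) / 2 = p.1.length + q.1.length - 1 := by omega
    rw [e1]
    exact h1

/-! ### isolated zeros -/

/-- a zero which lies in no infinite arithmetic progression of zeros -/
def Iso (u : ℕ → ℤ) (n : ℕ) : Prop := u n = 0 ∧ ∀ b, 0 < b → ∃ l, u (n + b * l) ≠ 0

lemma iso_even {u v : ℕ → ℤ} {n : ℕ} (h : Iso u n) : Iso (inter u v) (2 * n) := by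
  refine ⟨by rw [inter_even]; exact h.1, fun b hb => ?_⟩
  obtain ⟨l, hl⟩ := h.2 b hb
  refine ⟨2 * l, ?_⟩
  have e : 2 * n + b * (2 * l) = 2 * (n + b * l) := by ring
  rw [e, inter_even]
  exact hl

lemma iso_odd {u v : ℕ → ℤ} {n : ℕ} (h : Iso v n) : Iso (inter u v) (2 * n + 1) := by
  refine ⟨by rw [inter_odd]; exact h.1, fun b hb => ?_⟩
  obtain ⟨l, hl⟩ := h.2 b hb
  refine ⟨2 * l, ?_⟩
  have e : 2 * n + 1 + b * (2 * l) = 2 * (n + b * l) + 1 := by ring
  rw [e, inter_odd]
  exact hl

/-! ### computability -/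

lemma cj_primrec : Primrec (fun x : List ℤ × List ℤ => cj x.1 x.2) := by
  unfold cj
  have hr : Primrec (fun x : List ℤ × List ℤ => List.range (x.1.length + x.2.length)) := by fun_prop
  have h1 : Primrec (fun w : ((List ℤ × List ℤ) × ℕ) × ℕ =>
      w.1.1.1.getD w.2 0 * w.1.1.2.getD (w.1.2 - 1 - w.2) 0) := by fun_prop
  have h2 : Primrec (fun w : (List ℤ × List ℤ) × ℕ =>
      ((List.range w.2).map (fun j => w.1.1.getD j 0 * w.1.2.getD (w.2 - 1 - j) 0)).sum) :=
    pisum (pmap (f := fun w : (List ℤ × List ℤ) × ℕ => List.range w.2)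
      (g := fun (w : (List ℤ × List ℤ) × ℕ) (j : ℕ) => w.1.1.getD j 0 * w.1.2.getD (w.2 - 1 - j) 0)
      (by fun_prop) h1)
  have h3 : Primrec (fun w : (List ℤ × List ℤ) × ℕ => w.1.1.getD w.2 0 + w.1.2.getD w.2 0) := by
    fun_prop
  exact pmap (f := fun x : List ℤ × List ℤ => List.range (x.1.length + x.2.length))
    (g := fun (x : List ℤ × List ℤ) (i : ℕ) => x.1.getD i 0 + x.2.getD i 0 -
      ((List.range i).map (fun j => x.1.getD j 0 * x.2.getD (i - 1 - j) 0)).sum) hr (pisub h3 h2)

lemma ic_primrec : Primrec ic := by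
  unfold ic
  refine pmap (f := fun e : List ℤ => List.range (2 * e.length))
    (g := fun (e : List ℤ) (i : ℕ) => bif decide (i % 2 = 1) then e.getD (i / 2) 0 else 0)
    (by fun_prop) ?_
  fun_prop

lemma iw_primrec : Primrec (fun x : (List ℤ × List ℤ) × ℕ => iw x.1.1 x.1.2 x.2) := by
  unfold iw
  refine pmap (f := fun x : (List ℤ × List ℤ) × ℕ => List.range (2 * x.2))
    (g := fun (x : (List ℤ × List ℤ) × ℕ) (i : ℕ) =>
      bif decide (i % 2 = 0) then x.1.1.getD (i / 2) 0 else x.1.2.getD (i / 2) 0) (by fun_prop) ?_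
  fun_prop

attribute [local irreducible] cj ic iw aa in
lemma il_primrec : Primrec (fun x : Pr × Pr => il x.1 x.2) := by
  unfold il
  have h1 : Primrec (fun x : Pr × Pr => cj x.1.1 x.2.1) :=
    cj_primrec.comp ((Primrec.fst.comp Primrec.fst).pair (Primrec.fst.comp Primrec.snd))
  have h2 : Primrec (fun x : Pr × Pr => ic (cj x.1.1 x.2.1)) := ic_primrec.comp h1
  have h3 : Primrec (fun x : Pr × Pr => aa x.1.1 x.1.2 x.2.1.length) := by
    have g : Primrec (fun x : Pr × Pr => (x.1, x.2.1.length)) := by fun_prop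
    exact aa_primrec.comp g
  have h4 : Primrec (fun x : Pr × Pr => aa x.2.1 x.2.2 x.1.1.length) := by
    have g : Primrec (fun x : Pr × Pr => (x.2, x.1.1.length)) := by fun_prop
    exact aa_primrec.comp g
  have h5 : Primrec (fun x : Pr × Pr => x.1.1.length + x.2.1.length) := by fun_prop
  have h6 : Primrec (fun x : Pr × Pr => iw (aa x.1.1 x.1.2 x.2.1.length)
      (aa x.2.1 x.2.2 x.1.1.length) (x.1.1.length + x.2.1.length)) :=
    iw_primrec.comp ((h3.pair h4).pair h5)
  exact h2.pair h6

end Pool.Agent.H201.SK
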