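import Pool.Agent.H201.SK.Rec
import Pool.Agent.H201.AD.Stage

/-!
# Bounds for the isolated zeros of linear recurrence sequences from boundedly many guesses
-/

set_option autoImplicit false

namespace Pool.Agent.H201.SK

open Filter Encodable Pool.Agent.Q324.SC

/-- `v` is at least every isolated zero -/
def BdI (p : Pr) (v : ℕ) : Prop := ∀ u, IsSeq p.1 p.2 u → ∀ n, Iso u n → n ≤ v

lemma bdI_inp {p : Pr} (hv : Valid p) {m M j v : ℕ} : BdI (inp p m M j) v ↔ BdI p v := by
  obtain ⟨u, hu⟩ := exists_seq hv.1 hv.2.1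
  have hu2 : IsSeq (inp p m M j).1 (inp p m M j).2 u := isSeq_new hv.1 hv.2.1 hu m M j
  constructor
  · intro h u' hu'
    rw [seq_unique hu' hu]
    exact h u hu2
  · intro h u' hu'
    rw [seq_unique hu' hu2]
    exact h u hu

noncomputable instance : DecidablePred Valid := fun _ => Classical.propDecidable _

/-- the interleaving of the inputs of code less than `n` -/
noncomputable def yy (n : ℕ) : Pr :=
  Nat.rec (motive := fun _ => Pr) ([1], [1])
    (fun c a => Option.casesOn (decode (α := Pr) c) a (fun p => if Valid p then il p a else a)) n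

lemma yy_succ (n : ℕ) : yy (n + 1) =
    Option.casesOn (decode (α := Pr) n) (yy n) (fun p => if Valid p then il p (yy n) else yy n) := rfl

lemma yy_valid (n : ℕ) : Valid (yy n) := by
  induction n with
  | zero => exact ⟨rfl, le_rfl, by simp [yy]⟩
  | succ n ih =>
    rw [yy_succ]
    rcases hd : decode (α := Pr) n with _ | p
    · exact ih
    · simp only
      split_ifs with h
      · exact il_valid h ih
      · exact ih

lemma yy_bd {p : Pr} (hp : Valid p) {n v : ℕ} (hn : encode p < n) (h : BdI (yy n) v) : BdI p v := by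
  induction n with
  | zero => omega
  | succ n ih =>
    rw [yy_succ] at h
    rcases Nat.lt_succ_iff_lt_or_eq.1 hn with h1 | h1
    · rcases hd : decode (α := Pr) n with _ | q
      · rw [hd] at h
        exact ih h1 h
      · rw [hd] at h
        simp only at h
        split_ifs at h with hq
        · refine ih h1 ?_
          intro w hw m hm
          obtain ⟨u, hu⟩ := exists_seq hq.1 hq.2.1
          have h2 := h _ (il_isSeq hq (yy_valid n) hu hw) _ (iso_odd hm)
          omega
        · exact ih h1 h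
    · rw [← h1, encodek] at h
      simp only at h
      rw [if_pos hp] at h
      intro u hu m hm
      obtain ⟨w, hw⟩ := exists_seq (yy_valid (encode p)).1 (yy_valid (encode p)).2.1
      have h2 := h _ (il_isSeq hp (yy_valid _) hu hw) _ (iso_even hm)
      omega

lemma valid_comp : Computable (fun p : Pr => decide (Valid p)) := by
  have := valid_primrec.decide.to_comp
  exact this.of_eq fun p => by simp

attribute [local irreducible] il Valid in
lemma yy_comp : Computable yy := by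
  refine Computable.nat_rec (f := fun n : ℕ => n) (g := fun _ => (([1], [1]) : Pr))
    (h := fun (_ : ℕ) (y : ℕ × Pr) =>
      (Option.casesOn (decode (α := Pr) y.1) y.2 (fun p => if Valid p then il p y.2 else y.2) : Pr))
    Computable.id (Computable.const _) ?_
  have h1 : Computable (fun w : (ℕ × ℕ × Pr) × Pr => decide (Valid w.2)) :=
    valid_comp.comp Computable.snd
  have h2 : Computable (fun w : (ℕ × ℕ × Pr) × Pr => w.1.2.2) :=
    Computable.snd.comp (Computable.snd.comp Computable.fst)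
  have h3 : Computable (fun w : (ℕ × ℕ × Pr) × Pr => il w.2 w.1.2.2) :=
    Computable.comp (f := fun x : Pr × Pr => il x.1 x.2)
      (g := fun w : (ℕ × ℕ × Pr) × Pr => (w.2, w.1.2.2)) il_primrec.to_comp
      (Computable.snd.pair h2)
  have h4 : Computable (fun w : (ℕ × ℕ × Pr) × Pr =>
      (if Valid w.2 then il w.2 w.1.2.2 else w.1.2.2 : Pr)) := by
    refine (Computable.cond h1 h3 h2).of_eq fun w => ?_
    by_cases h : Valid w.2 <;> simp [h]
  have h5 : Computable (fun z : ℕ × ℕ × Pr => decode (α := Pr) z.2.1) :=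
    Computable.decode.comp (Computable.fst.comp Computable.snd)
  exact Computable.option_casesOn (o := fun z : ℕ × ℕ × Pr => decode (α := Pr) z.2.1)
    (f := fun z => z.2.2) (g := fun z p => (if Valid p then il p z.2.2 else z.2.2 : Pr)) h5
    (Computable.snd.comp Computable.snd) h4

/-- the number of the new coefficients; `y = (p, n, H)` -/
def mf (y : Pr × ℕ × ℕ) : ℕ := y.2.1 - y.1.1.length

/-- their range -/
def Mf (y : Pr × ℕ × ℕ) : ℕ := y.2.2 / big y.1 (mf y) - 1

def num (y : Pr × ℕ × ℕ) : ℕ := (Mf y + 1) ^ mf y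

/-- when the vote is right -/
def okk (g K : ℕ → ℕ) (y : Pr × ℕ × ℕ) : Prop :=
  y.1.1.length + 1 ≤ y.2.1 ∧ y.1.1.length + 1 ≤ g y.2.1 ∧
    big y.1 (mf y) * (mm y.1 (mf y) (K y.2.1) + 1) ≤ y.2.2

lemma vote_gd {g K : ℕ → ℕ} {y : Pr × ℕ × ℕ} (hv : Valid y.1) (hok : okk g K y) {Gd : Pr → Prop}
    [DecidablePred Gd]
    (h : {p | p ∈ Inputs y.2.1 y.2.2 ∧ ¬ Gd p}.encard
      ≤ ((K y.2.1 * (y.2.2 + 1) ^ (y.2.1 - g y.2.1) : ℕ) : ℕ∞)) :
    num y < 2 * ((Finset.range (num y)).filter fun j => Gd (inp y.1 (mf y) (Mf y) j)).card := by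
  obtain ⟨p, n, H⟩ := y
  obtain ⟨h1, h2, h3⟩ := hok
  simp only at h1 h2 h3 hv h ⊢
  obtain ⟨m, hm⟩ : ∃ m, m = mf (p, n, H) := ⟨_, rfl⟩
  have hmn : p.1.length + m = n := by
    rw [hm]
    unfold mf
    simp only
    omega
  have hm1 : 1 ≤ m := by omega
  obtain ⟨b, hb⟩ : ∃ b, b = big p m := ⟨_, rfl⟩
  have hb1 : 1 ≤ b := by
    rw [hb]
    unfold big
    omega
  obtain ⟨M, hM⟩ : ∃ M, M = Mf (p, n, H) := ⟨_, rfl⟩
  have hM2 : M = H / b - 1 := by
    rw [hM, hb, hm]
    rfl
  rw [← hm] at h3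
  rw [← hb] at h3
  have hq : mm p m (K n) + 1 ≤ H / b := by
    rw [Nat.le_div_iff_mul_le (by omega), Nat.mul_comm]
    exact h3
  have hMm : mm p m (K n) ≤ M := by omega
  have hM3 : H / b = M + 1 := by omega
  have hM4 : b * (M + 1) ≤ H := by
    rw [← hM3]
    exact Nat.mul_div_le _ _
  have hM5 : H < b * (M + 2) := by
    have := Nat.lt_mul_div_succ H (show 0 < b by omega)
    rwa [hM3] at this
  have hnum : num (p, n, H) = (M + 1) ^ m := by
    unfold num
    rw [← hm, ← hM]
  rw [hnum, ← hm, ← hM]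
  obtain ⟨W, hW⟩ : ∃ W, W = (Finset.range ((M + 1) ^ m)).filter (fun j => ¬ Gd (inp p m M j)) :=
    ⟨_, rfl⟩
  have e1 : W.card ≤ K n * (H + 1) ^ (n - g n) := by
    have a1 : (W.card : ℕ∞) ≤ {p | p ∈ Inputs n H ∧ ¬ Gd p}.encard := by
      rw [← Set.encard_coe_eq_coe_finsetCard]
      have a2 : Set.InjOn (fun k => inp p m M k) (W : Set ℕ) := by
        intro k hk k' hk' hkk
        rw [hW, Finset.mem_coe, Finset.mem_filter, Finset.mem_range] at hk hk'
        exact cc_inj hk.1 hk'.1 (congrArg Prod.fst hkk)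
      rw [← a2.encard_image]
      refine Set.encard_le_encard ?_
      rintro _ ⟨k, hk, rfl⟩
      rw [hW, Finset.mem_coe, Finset.mem_filter, Finset.mem_range] at hk
      refine ⟨?_, hk.2⟩
      have a3 := inp_mem hv m M k
      rw [hmn, ← hb] at a3
      exact ⟨a3.1, a3.2.1, fun z hz => (a3.2.2.1 z hz).trans hM4, fun z hz => (a3.2.2.2 z hz).trans hM4⟩
    exact_mod_cast a1.trans h
  have e2 : W.card ≤ K n * (H + 1) ^ (m - 1) :=
    e1.trans (Nat.mul_le_mul_left _ (Nat.pow_le_pow_right (by omega) (by omega)))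
  have e3 : H + 1 ≤ 2 * b * (M + 1) := by nlinarith
  have e4 : W.card ≤ K n * (2 * b) ^ (m - 1) * (M + 1) ^ (m - 1) := by
    refine e2.trans ?_
    rw [mul_assoc, ← mul_pow]
    exact Nat.mul_le_mul_left _ (Nat.pow_le_pow_left e3 _)
  have e5 : 2 * (K n * (2 * b) ^ (m - 1) * (M + 1) ^ (m - 1)) < (M + 1) ^ m := by
    have a1 : (M + 1) ^ m = (M + 1) * (M + 1) ^ (m - 1) := by
      rw [← pow_succ']
      congr 1
      omega
    rw [a1, ← mul_assoc]
    refine Nat.mul_lt_mul_of_pos_right ?_ (by positivity)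
    have a2 : 2 * (K n * (2 * b) ^ (m - 1)) ≤ M := by
      refine le_trans ?_ hMm
      unfold mm
      rw [← mul_assoc, ← hb]
      exact Nat.mul_le_mul_left _ (Nat.pow_le_pow_right (by omega) (by omega))
    omega
  have e6 : ((Finset.range ((M + 1) ^ m)).filter fun j => Gd (inp p m M j)).card + W.card =
      (M + 1) ^ m := by
    rw [hW, Finset.card_filter_add_card_filter_not, Finset.card_range]
  omega

/-! ### computability -/

lemma mf_primrec : Primrec mf := by
  unfold mf
  fun_prop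

attribute [local irreducible] big mf in
lemma bg_primrec : Primrec (fun y : Pr × ℕ × ℕ => big y.1 (mf y)) :=
  big_primrec.comp (g := fun y : Pr × ℕ × ℕ => (y.1, mf y)) (Primrec.fst.pair mf_primrec)

attribute [local irreducible] big mf in
lemma Mf_primrec : Primrec Mf := by
  unfold Mf
  have h1 := bg_primrec
  have h2 : Primrec (fun y : Pr × ℕ × ℕ => y.2.2) := by fun_prop
  exact psub (pdiv h2 h1) (pconst 1)

attribute [local irreducible] big mf Mf in
lemma num_primrec : Primrec num := by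
  unfold num
  exact ppow (padd Mf_primrec (pconst 1)) mf_primrec

attribute [local irreducible] big mf mm in
lemma ok_comp {g K : ℕ → ℕ} (hg : Computable g) (hK : Computable K) :
    Computable (fun y : Pr × ℕ × ℕ => @decide (okk g K y) (Classical.propDecidable _)) := by
  classical
  have h0 : Primrec (fun y : ℕ × ℕ => decide (y.1 ≤ y.2)) := by fun_prop
  have hd : Primrec (fun y : Pr × ℕ × ℕ => y.1.1.length + 1) := by fun_prop
  have hn : Primrec (fun y : Pr × ℕ × ℕ => y.2.1) := by fun_prop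
  have hH : Primrec (fun y : Pr × ℕ × ℕ => y.2.2) := by fun_prop
  have q1 : Computable (fun y : Pr × ℕ × ℕ => decide (y.1.1.length + 1 ≤ y.2.1)) :=
    Computable.comp (f := fun y : ℕ × ℕ => decide (y.1 ≤ y.2))
      (g := fun y : Pr × ℕ × ℕ => (y.1.1.length + 1, y.2.1)) h0.to_comp (hd.to_comp.pair hn.to_comp)
  have q2 : Computable (fun y : Pr × ℕ × ℕ => decide (y.1.1.length + 1 ≤ g y.2.1)) :=
    Computable.comp (f := fun y : ℕ × ℕ => decide (y.1 ≤ y.2))
      (g := fun y : Pr × ℕ × ℕ => (y.1.1.length + 1, g y.2.1)) h0.to_comp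
      (hd.to_comp.pair (hg.comp hn.to_comp))
  have q3 : Computable (fun y : Pr × ℕ × ℕ => mm y.1 (mf y) (K y.2.1)) :=
    Computable.comp (f := fun x : Pr × ℕ × ℕ => mm x.1 x.2.1 x.2.2)
      (g := fun y : Pr × ℕ × ℕ => (y.1, mf y, K y.2.1)) mm_primrec.to_comp
      (Computable.fst.pair (mf_primrec.to_comp.pair (hK.comp hn.to_comp)))
  have q4 : Computable (fun y : Pr × ℕ × ℕ => big y.1 (mf y) * (mm y.1 (mf y) (K y.2.1) + 1)) :=
    Primrec.nat_mul.to_comp.comp bg_primrec.to_comp (Computable.succ.comp q3)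
  have q5 : Computable (fun y : Pr × ℕ × ℕ =>
      decide (big y.1 (mf y) * (mm y.1 (mf y) (K y.2.1) + 1) ≤ y.2.2)) :=
    Computable.comp (f := fun y : ℕ × ℕ => decide (y.1 ≤ y.2))
      (g := fun y : Pr × ℕ × ℕ => (big y.1 (mf y) * (mm y.1 (mf y) (K y.2.1) + 1), y.2.2))
      h0.to_comp (q4.pair hH.to_comp)
  refine (Primrec.and.to_comp.comp q1 (Primrec.and.to_comp.comp q2 q5)).of_eq fun x => ?_
  rw [Bool.eq_iff_iff]
  simp only [Bool.and_eq_true, decide_eq_true_eq]
  rfl

open Classical in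
/-- **Boundedly many guesses for most inputs.** -/
theorem advice_guess (k : ℕ) {A : ℕ × Pr →. ℕ} {K g : ℕ → ℕ} {r : ℕ × ℕ → Bool} (hA : Partrec A)
    (hK : Computable K) (hg : Computable g) (hr : Computable r)
    (hdens : ∀ m, ∃ n, m ≤ n ∧ m ≤ g n ∧ ∀ B, ∃ H ≥ B, r (n, H) = true)
    (h : ∀ n H : ℕ, r (n, H) = true →
      {p | p ∈ Inputs n H ∧ ¬ ∃ i < k, ∃ v ∈ A (i, p), BdI p v}.encard
        ≤ ((K n * (H + 1) ^ (n - g n) : ℕ) : ℕ∞)) :
    ∃ B : Pr → ℕ, Computable B ∧ ∀ p, Valid p → BdI p (B p) := by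
  have cy : Computable yy := yy_comp
  -- the search for a good stage
  let p : ℕ → ℕ → Bool := fun N t => r (t.unpair.1, t.unpair.2) &&
    @decide (okk g K (yy N, t.unpair.1, t.unpair.2)) (Classical.propDecidable _)
  have hp : Computable₂ p := by
    have u1 : Computable (fun z : ℕ × ℕ => z.2.unpair.1) :=
      (Primrec.fst.comp (Primrec.unpair.comp Primrec.snd)).to_comp
    have u2 : Computable (fun z : ℕ × ℕ => z.2.unpair.2) :=
      (Primrec.snd.comp (Primrec.unpair.comp Primrec.snd)).to_comp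
    have a3 : Computable (fun z : ℕ × ℕ => r (z.2.unpair.1, z.2.unpair.2)) := hr.comp (u1.pair u2)
    have a4 : Computable (fun z : ℕ × ℕ =>
        @decide (okk g K (yy z.1, z.2.unpair.1, z.2.unpair.2)) (Classical.propDecidable _)) :=
      Computable.comp
        (f := fun y : Pr × ℕ × ℕ => @decide (okk g K y) (Classical.propDecidable _))
        (g := fun z : ℕ × ℕ => (yy z.1, z.2.unpair.1, z.2.unpair.2)) (ok_comp hg hK)
        ((cy.comp Computable.fst).pair (u1.pair u2))
    exact Primrec.and.to_comp.comp a3 a4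
  obtain ⟨f, hf, hf'⟩ := Pool.Agent.H201.AD.Bnd.find_comp hp fun N => by
    obtain ⟨n, h1, h2, h3⟩ := hdens ((yy N).1.length + 1)
    obtain ⟨H, h4, h5⟩ := h3 (big (yy N) (n - (yy N).1.length) *
      (mm (yy N) (n - (yy N).1.length) (K n) + 1))
    refine ⟨Nat.pair n H, ?_⟩
    simp only [p, Nat.unpair_pair, Bool.and_eq_true]
    exact ⟨h5, decide_eq_true ⟨h1, h2, h4⟩⟩
  obtain ⟨σ, hσ⟩ : ∃ σ : ℕ → ℕ × ℕ, σ = fun N => ((f N).unpair.1, (f N).unpair.2) := ⟨_, rfl⟩
  have cσ : Computable σ := by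
    rw [hσ]
    exact (Computable.fst.comp (Computable.unpair.comp hf)).pair
      (Computable.snd.comp (Computable.unpair.comp hf))
  have hσ2 : ∀ N, r (σ N) = true ∧ okk g K (yy N, σ N) := by
    intro N
    have h1 := hf' N
    simp only [p, Bool.and_eq_true] at h1
    rw [hσ]
    exact ⟨h1.1, of_decide_eq_true h1.2⟩
  have cs : Computable (fun N : ℕ => (yy N, σ N)) := cy.pair cσ
  obtain ⟨R, hR⟩ : ∃ R : ℕ → ℕ → Prop, ∀ n v, R n v ↔ ∀ p, encode p < n → Valid p → BdI p v :=
    ⟨_, fun n v => Iff.rfl⟩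
  have hst : ∀ n, num (yy n, σ n) < 2 * ((Finset.range (num (yy n, σ n))).filter fun j =>
      ∃ i < k, ∃ v ∈ A (i, inp (yy n) (mf (yy n, σ n)) (Mf (yy n, σ n)) j), R n v).card := by
    intro n
    obtain ⟨hr1, hok⟩ := hσ2 n
    have h1 := vote_gd (y := (yy n, σ n)) (yy_valid n) hok
      (Gd := fun p => ∃ i < k, ∃ v ∈ A (i, p), BdI p v) (h (σ n).1 (σ n).2 hr1)
    refine lt_of_lt_of_le h1 (Nat.mul_le_mul_left 2 (Finset.card_le_card fun j hj => ?_))
    rw [Finset.mem_filter] at hj ⊢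
    obtain ⟨hj1, i, hi, v, hv, hb⟩ := hj
    refine ⟨hj1, i, hi, v, hv, ?_⟩
    rw [hR]
    intro p hp hpv
    exact yy_bd hpv hp ((bdI_inp (yy_valid n)).1 hb)
  have cc : Computable (fun z : ℕ × ℕ =>
      inp (yy z.1) (mf (yy z.1, σ z.1)) (Mf (yy z.1, σ z.1)) z.2) := by
    refine inp_comp (p := fun z : ℕ × ℕ => yy z.1) (m := fun z : ℕ × ℕ => mf (yy z.1, σ z.1))
      (M := fun z : ℕ × ℕ => Mf (yy z.1, σ z.1)) (k := fun z : ℕ × ℕ => z.2)
      (cy.comp Computable.fst) ?_ ?_ Computable.snd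
    · exact Computable.comp (f := mf) (g := fun z : ℕ × ℕ => (yy z.1, σ z.1)) mf_primrec.to_comp
        (cs.comp Computable.fst)
    · exact Computable.comp (f := Mf) (g := fun z : ℕ × ℕ => (yy z.1, σ z.1)) Mf_primrec.to_comp
        (cs.comp Computable.fst)
  have cn : Computable (fun N : ℕ => num (yy N, σ N)) :=
    Computable.comp (f := num) (g := fun N : ℕ => (yy N, σ N)) num_primrec.to_comp cs
  obtain ⟨C, hC, hC2⟩ := Pool.Agent.H201.AD.Bnd.stage_bound (R := R) k hA
    (c := fun z => inp (yy z.1) (mf (yy z.1, σ z.1)) (Mf (yy z.1, σ z.1)) z.2) cc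
    (num := fun N => num (yy N, σ N)) cn
    (fun n v w hvw h1 => (hR n w).2 fun p hp hpv u hu m hm =>
      ((hR n v).1 h1 p hp hpv u hu m hm).trans hvw)
    (fun m n v hmn h1 => (hR m v).2 fun p hp => (hR n v).1 h1 p (hp.trans_le hmn)) hst
  exact ⟨fun p => C (encode p + 1), hC.comp (Primrec.succ.comp Primrec.encode).to_comp,
    fun p hp => (hR _ _).1 (hC2 (encode p + 1)) p (Nat.lt_succ_self _) hp⟩

end Pool.Agent.H201.SK
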